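import Mathlib
import Pool.Agent.K4H84.FR.Gen

set_option autoImplicit false

/-!
# Integer versus cyclic-group flow reconfiguration (MP_3da9df_co)

Let `G` be a finite loopless multigraph and `k ≥ 2`.  Suppose that

  `⌊k / 2⌋ |C ∩ B| < 2 k + 2 |B|`  for every cycle `C` and every bond `B` of `G`.

If the reconfiguration graph `F(G, ℤ_k)` is connected then `F(G, k)` is connected (a graph without
vertices counts as connected).

The condition is always true for `k ≤ 5`, since `|C ∩ B| ≤ |B|`; so the question has a positive
answer for all graphs and all `k ≤ 5`.  For `k ≥ 6` it is true for example if every cycle meets every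
bond in at most four edges, and for `k = 6` it says that no cycle `C` contains `4 + 2 |B| / 3` or more
edges of a bond `B`.

The definitions `MGraph`, `IsFlow`, `Joins`, `IsCycle`, `NZFlow`, `KFlow`, `groupFlowGraph`,
`intFlowGraph` are in `Pool/Agent/K4H84/FR/Basic.lean`, and `Crosses`, `IsBond` are in
`Pool/Agent/K4H84/FR/Gen.lean`.

Proof.  A lift of a nowhere-zero `ℤ_k`-flow `f` is a `k`-flow congruent to `f` modulo `k`.

(1) All lifts of `f` are in one component of `F(G, k)`: if `F ≠ F'` are lifts and `F e ≠ F' e`, then
there is a directed cycle through `e` (edges directed such that `F` is positive) on which `F` and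
`F'` differ everywhere, since otherwise `F - F'` violates Kirchhoff's law on a cut; subtracting `k`
around this cycle is one move, and afterwards the lifts differ on fewer edges.

(2) Let `g = f + c χ` for the signed indicator function `χ` of a cycle `C`; replacing `f`, `g` by
`-f`, `-g` if necessary we have `1 ≤ c ≤ k / 2`.  For a lift `F` of `f` the flow `F + c χ` is a lift
of `g` unless `F` has a value greater than `k - c` in the direction of `C` on some edges of `C` (the
bad edges).  Let `e` be a bad edge.  If there is a directed cycle (with respect to `F`) through `e`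
which avoids the edges of `C` on which `F` has one of the values `-1, ..., -(c - 1)` in the
direction of `C`, then subtracting `k` around it gives a lift with fewer bad edges.

(3) Otherwise there is a set `X` of vertices such that `e` enters `X` and only edges of `C` with
values `-1, ..., -(c - 1)` leave `X`; one can choose `X` such that its boundary `B` is a bond.  Let
`t = |C ∩ B| / 2`.  The net flow of `F + (c - 1) χ` out of `X` is zero, but the edges on which `C`
leaves `X` contribute at most `c - 2` each, the edges on which `C` enters `X` contribute at most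
zero, `e` contributes at most `-k`, and the other edges of `B` at most `-1` each.  Therefore
`0 ≤ (c - 2) t - k - (|B| - 2 t) = c t - k - |B|`, a contradiction to the condition.
-/

namespace Pool.Agent.Results.MP_3da9df_co.CyclesAndBonds

open Pool.Agent.K4H84.FR

/-- Let `k ≤ 5`, or let `⌊k / 2⌋ |C ∩ B| < 2 k + 2 |B|` for every cycle `C` and every bond `B`.  If
`F(G, ℤ_k)` is connected then `F(G, k)` is connected. -/
theorem result {V E : Type} [Fintype V] [DecidableEq V] [Fintype E] [DecidableEq E]
    (G : MGraph V E) (k : ℕ) (hk : 2 ≤ k)
    (hB : k ≤ 5 ∨ ∀ C : Set E, G.IsCycle C → ∀ X : Finset V, G.IsBond X →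
      (k / 2) * {x ∈ C | G.Crosses X x}.ncard < 2 * (k + {x | G.Crosses X x}.ncard))
    (h : (G.groupFlowGraph (ZMod k)).Preconnected) : (G.intFlowGraph k).Preconnected := by
  have hτ : G.CycleBond k := by
    rcases hB with hk5 | hB
    · exact MGraph.cycleBond_of_le hk hk5
    · exact hB
  intro F F'
  have key : ∀ H : G.KFlow k, ∃ f : G.NZFlow (ZMod k), G.Lift k f.1 H.1 := by
    intro H
    refine ⟨⟨fun e => (H.1 e : ZMod k), H.2.1.cast k, ?_⟩, H.2.1, fun e => (H.2.2 e).2,
      fun e => rfl⟩
    intro e h0
    rw [ZMod.intCast_zmod_eq_zero_iff_dvd] at h0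
    have h1 := Int.eq_zero_of_abs_lt_dvd h0 (H.2.2 e).2
    exact (H.2.2 e).1 h1
  obtain ⟨f, hf⟩ := key F
  obtain ⟨f', hf'⟩ := key F'
  obtain ⟨p⟩ := h f f'
  exact MGraph.walk_reachable_gen hk hτ p hf hf'

end Pool.Agent.Results.MP_3da9df_co.CyclesAndBonds
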