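import Mathlib
import Pool.Agent.K4H84.FR.Planar

set_option autoImplicit false

/-!
# Integer versus cyclic-group flow reconfiguration of planar graphs (MP_3da9df_co)

Let `G` be a finite loopless multigraph which has a dual graph: two functions `s, t : E → W` such
that for every abelian group the flows of `G` are the potential differences `c (s e) - c (t e)` of
the functions `c` on `W`.  (Plane graphs have one: `W` is the set of faces and `s e`, `t e` are the
faces on the two sides of `e`; by Whitney's theorem only planar graphs have one.)  If `2 ≤ k ≤ 6` and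
the reconfiguration graph `F(G, ℤ_k)` is connected then `F(G, k)` is connected.

The case `k ≥ 7` is listed as known in the problem file, so this completes the question for planar
graphs.  The new case here is `k = 6`; for `k ≤ 5` see `CyclesAndBonds.lean`, where no planarity is
needed.

The definitions `MGraph`, `IsFlow`, `Joins`, `IsCycle`, `NZFlow`, `KFlow`, `groupFlowGraph`,
`intFlowGraph` are in `Pool/Agent/K4H84/FR/Basic.lean`, and `IsDual` is in
`Pool/Agent/K4H84/FR/Planar.lean`.

Proof for `k = 6`.  A lift of a nowhere-zero `ℤ_6`-flow `f` is a `6`-flow congruent to `f` modulo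
`6`; all lifts of `f` are in one component of `F(G, 6)`.  Moves `g = f ± c χ_C` with `c = 1, 2` can
be lifted (see `CyclesAndBonds.lean`).  Let `g = f + 3 χ_C`.  In the dual graph a lift of `f` is the
difference function of an integral potential `P`, `0 < |P u - P v| < 6` for adjacent `u`, `v`, and
`g` belongs to `P + 3 · 1_S` for a set `S`.  We shift the three sets `A = {w ∈ S : P w ≡ a mod 3}` one
after the other.  Neighbours `u ∈ A`, `v ∉ A` do not have `P u ≡ P v + 3` modulo `6` (otherwise `v`
is in `S`, since `g` is nowhere zero).  The shift of `A` by `3` is possible unless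
`P u - P v ∈ {4, 5}` for some neighbours `u ∈ A`, `v ∉ A` (bad edges).  If there is a bad edge then
put `M = P u` and subtract `6` from `P` on `U = {w ∈ A : P w ≥ M} ∪ {w ∉ A : P w ≥ M + 1}`.  If
`x ∈ U` and `y ∉ U` are neighbours then `P y ≤ M ≤ P x`, so this gives another lift.  No edge becomes
bad: otherwise `u' ∈ A \ U`, `v' ∈ U \ A` and `P u' - P v' ≥ -2`, but `P u' ≤ M - 3` since
`P u' ≡ M` modulo `3`, and `P v' ≥ M + 1`.  The given edge is not bad any more.  Finally the shift of
`A` by `3` changes the flow by `3 w` for a flow `w` with values in `{-1, 0, 1}`, which is the sum of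
the functions of edge-disjoint directed cycles, so it is a sequence of moves.
-/

namespace Pool.Agent.Results.MP_3da9df_co.PlanarGraphs

open Pool.Agent.K4H84.FR

/-- Let `G` have a dual graph and `2 ≤ k ≤ 6`.  If `F(G, ℤ_k)` is connected then `F(G, k)` is
connected. -/
theorem result {V E : Type} [Fintype V] [DecidableEq V] [Fintype E] [DecidableEq E]
    (G : MGraph V E) {W : Type} (s t : E → W) (hD : G.IsDual s t)
    (k : ℕ) (hk : 2 ≤ k) (hk6 : k ≤ 6)
    (h : (G.groupFlowGraph (ZMod k)).Preconnected) : (G.intFlowGraph k).Preconnected := by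
  intro F F'
  have key : ∀ H : G.KFlow k, ∃ f : G.NZFlow (ZMod k), G.Lift k f.1 H.1 := by
    intro H
    refine ⟨⟨fun e => (H.1 e : ZMod k), H.2.1.cast k, ?_⟩, H.2.1, fun e => (H.2.2 e).2,
      fun e => rfl⟩
    intro e h0
    rw [ZMod.intCast_zmod_eq_zero_iff_dvd] at h0
    have h1 := Int.eq_zero_of_abs_lt_dvd h0 (H.2.2 e).2
    exact (H.2.2 e).1 h1
  obtain ⟨f, hf⟩ := key F
  obtain ⟨f', hf'⟩ := key F'
  obtain ⟨p⟩ := h f f'
  by_cases hk5 : k ≤ 5
  · exact MGraph.walk_reachable hk hk5 p hf hf'
  · have h6 : k = 6 := by omega
    subst h6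
    exact MGraph.walk_reachable_six hD p hf hf'

end Pool.Agent.Results.MP_3da9df_co.PlanarGraphs
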